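import Pool.Agent.Y143.Par.PhiN

/-!
# p-adic weight-monodromy for the cohomology of fibre powers of elliptic curves over curves
-/

open Pool.Agent.Y143 Pool.Agent.Y143.Par
open scoped TensorProduct

universe u

/-- The p-adic weight-monodromy conjecture for the Hyodo-Kato cohomology of fibre powers of elliptic
curves over curves. Let `K₀` be the field of fractions of the Witt vectors of a field with `p ^ f`
elements, `σ` its Frobenius, `E = (D, φ, N)` a `(φ, N)`-module over `K₀` such that `Ω ⊗ D` is a direct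
summand of a sum of Tate twists of parabolic cohomology groups `H^1_HK(C, j_* Sym^k R^1 f_*)` (with
`k + 1 + 2 t = m`). Then the graded pieces `gr^M_a D` of the monodromy filtration are pure of weight
`m + a`. -/
theorem Pool.Agent.Results.MP_d037d4_ag.FibrePowers.result
    {K₀ : Type u} [Field K₀] [CharZero K₀] {σ : K₀ →+* K₀} {p f : ℕ} (hp : p ≠ 0)
    (hσ : ∀ a, σ^[f] a = a) {Ω : Type u} [Field Ω] [CharZero Ω] [Algebra K₀ Ω]
    {R : Type} [Field R] [LinearOrder R] [IsStrictOrderedRing R] [Algebra R Ω]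
    {ι : Type} [Finite ι] (P : ι → ParabolicCohomology.{u, u} Ω R (p ^ f)) (t : ι → ℤ) (m : ℤ)
    (hm : ∀ i, (P i).k + 1 + 2 * t i = m) (E : PhiNModule.{u, u} K₀ σ p)
    (hE : IsSummand (p ^ f) (fun i => (P i).H) (fun i => (P i).frob) (fun i => (P i).N) t
      ((E.frob f hσ).baseChange Ω) (E.N.baseChange Ω)) :
    E.IsPure Ω f hσ m :=
  E.isPure_of_isMWPure hp Ω f hσ m
    (hE.isMWPure (pow_ne_zero f hp) hm fun i => (P i).isMWPure (pow_ne_zero f hp))
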