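import Pool.Agent.Y163.MX.Fin

/-!
# MP_d037d4_ag: weights, slopes and Hodge numbers; varieties with maximal monodromy
-/

set_option autoImplicit false

open Module

universe u v w

namespace Pool.Agent.Results.MP_d037d4_ag.MaximalMonodromy

open Pool.Agent.H914 Pool.Agent.Y143 Pool.Agent.Y163.MW Pool.Agent.Y163.MX

section

variable {K : Type u} [Field K] {Ω : Type w} [Field Ω] [CharZero Ω]

/-- The sandwich `2 ∑ k rank (N ^ k) ≤ ∑ (w - m)² ≤ ∑ (2 λ - m)² ≤ ∑ (a - b)² h^(a,b)` for `H^m(X)`: the
sums are over the powers of `N`, the eigenvalues of the Frobenius (with weights `w` and slopes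
`λ`), and the Hodge numbers with `a + b = m`. -/
def Sandwich (T : PTheory.{u, v, w} K Ω) (q : ℕ) (X : SmVar.{u} K) (m : ℕ) : Prop :=
  (T.H X).rankMoment m ≤ (T.H X).weightMoment q m ∧
    ((T.H X).weightMoment q m : ℝ) ≤ newtonMoment (T.H X) T.val m ∧
    newtonMoment (T.H X) T.val m ≤ (hodgeMoment m (T.hodge X m) : ℝ)

/-- The number of the Frobenius eigenvalues on the graded pieces of the monodromy filtration of
`H^m(X)` whose weight is not the expected one is at most `∑ (a - b)² h^(a,b) - 2 ∑ k rank (N ^ k)`. -/
def FewWrong (T : PTheory.{u, v, w} K Ω) (q : ℕ) (X : SmVar.{u} K) (m : ℕ) : Prop :=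
  ∀ M : ℤ → Submodule Ω (T.H X).V, IsMonodromyFiltrationOn ((T.H X).gr m) (T.H X).N M →
    (finrank Ω ((T.H X).gr m) : ℤ) - rightDeg (T.H X) q m M ≤
      hodgeMoment m (T.hodge X m) - (T.H X).rankMoment m

/-- If the monodromy is maximal, that is, `2 ∑ k rank (N ^ k) ≥ ∑ (a - b)² h^(a,b)`, then the
weight-monodromy conjecture holds for `H^m(X)`; moreover all Frobenius eigenvalues on `H^m(X)` have
a weight `2 a` and the slope `a` for some natural number `a`, and there are `h^(a, m - a)` eigenvalues
of weight `2 a`. -/
def MaximalCase (T : PTheory.{u, v, w} K Ω) (q : ℕ) (X : SmVar.{u} K) (m : ℕ) : Prop :=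
  hodgeMoment m (T.hodge X m) ≤ (T.H X).rankMoment m → (T.H X).MWPure q m ∧
    (∀ α, mult (T.H X) m α ≠ 0 →
      ∃ a : ℕ, T.hodge X m a ≠ 0 ∧ IsWeilNumber q (2 * (a : ℤ)) α ∧ T.val α = a) ∧
    ∀ a : ℕ, finrank Ω ((T.H X).exc q m (2 * (a : ℤ) - m)) = T.hodge X m a

end

/-- **The `p`-adic weight-monodromy conjecture for varieties with maximal monodromy.** Let `X` be a
smooth proper variety over a finite extension `K` of `ℚ_p`, and `m ≤ 2 dim X`. Suppose that the
cohomology groups `H^j(X)` with `j ≠ m` are good: the characteristic polynomial of the Frobenius on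
`H^j(X)` has rational coefficients, for example because `H^j(X)` is generated by algebraic cycles
(as for all `j ≠ dim X` if `X` is a complete intersection in a projective space, a Grassmannian or
another flag variety). Then, for the Hyodo-Kato cohomology group `H^m(X)`,

(1) `2 ∑ k rank (N ^ k) ≤ ∑ (w - m)² ≤ ∑ (2 λ - m)² ≤ ∑ (a - b)² h^(a,b)`, where `w` and `λ` are the
weights and the slopes of the Frobenius eigenvalues, and `a + b = m`;

(2) the number of Frobenius eigenvalues on the graded pieces of the monodromy filtration whose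
weight is not the one predicted by the conjecture is at most the difference of the last and the
first term in (1);

(3) if the first term is equal to the last one, the conjecture holds for `H^m(X)`, and the
eigenvalues have the weights `2 a` and the slopes `a` with multiplicity `h^(a, m - a)`. -/
theorem result {K : Type u} [Field K] {Ω : Type w} [Field Ω] [CharZero Ω] [IsAlgClosed Ω]
    {T : PTheory.{u, v, w} K Ω} {q : ℕ} (hq : 1 < q) (hT : T.IsPLocal q) (X : SmVar.{u} K) (m : ℕ)
    (hm : m ≤ 2 * X.dim) (hX : GoodOutside (T.H X) q (2 * X.dim) m) :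
    Sandwich T q X m ∧ FewWrong T q X m ∧ MaximalCase T q X m := by
  have hrat := rational_of_good (hT.coh X) hm (hT.rational X) hX
  have hs := sandwich hq (hT.coh X) hrat hT.val (hT.polygons X m)
  refine ⟨hs, fun M hM => ?_, fun h => maximal hq (hT.coh X) hrat hT.val (hT.polygons X m) h⟩
  refine (wrong_le hq (hT.coh X) m hM).trans ?_
  have h1 : (T.H X).weightMoment q m ≤ hodgeMoment m (T.hodge X m) := by
    exact_mod_cast hs.2.1.trans hs.2.2
  linarith

end Pool.Agent.Results.MP_d037d4_ag.MaximalMonodromy
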