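import Pool.Agent.Y129.WM.SMain

/-!
# The `p`-adic weight-monodromy conjecture for one variety

Let `K` be a finite extension of `ℚ_p` whose residue field has `q = p ^ h` elements, `P = P_0` the
completion of the maximal unramified extension of `ℚ_p` and `Γ = W_K`. For a smooth proper `K`-scheme
`X` (of pure dimension) let `H^m(X) = D_pst(H^m_et(X_K̄, ℚ_p)) = P ⊗ H^m_HK(X)`, a module over `P` with a
semilinear bijection `φ`, the operator `N` (`N φ = p φ N`), and a semilinear action of `Γ` (a `PstMod`).
The element `g` of `Γ` acts linearly as `ρ(g) = g φ^{n(g)}`; the weights of `H^m(X)` are those of the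
Frobenius element `ρ(Fr)`, they are the weights of the linear Frobenius of Hyodo-Kato cohomology.
So the question Q1 for `X` and `m` is `WeightMonodromy`: for all `k` the map `N ^ k` is a bijection from
the part of weight `m + k` of `H^m(X)` to the part of weight `m - k`.

A `PstLocal s` consists of these data for all `X`, with the theorems on them which are used (they are
listed in the structures `PstFullTheory` and `PstLocal`):

* the eigenvalues of `ρ(Fr)` are Weil numbers of integral weights, at most `2 m` and at most
  `2 dim X` (weight spectral sequence, alterations, duality); exterior products, Poincaré duality, the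
  action `act` of the classes on products as correspondences; a class on a product which acts as zero
  is zero (`detect`: formula of Künneth and Poincaré duality);
* there is a Tate curve `E` over `K`, with `H^0(E) = ⟨1⟩`, `H^1(E) = ⟨e0, e1⟩`, `N(e1) = e0`,
  `H^2(E) = ⟨pt⟩`;
* `Good` is the class of the abelian varieties `Y` over `K` with potentially good reduction: `N = 0`
  on `H^n(Y)`, which is pure of weight `n`. `partner`: for every nonzero subspace `S` of the part of
  weight `a` of `H^m(X)` which is stable under `φ` and `Γ` there are such a `Y`, `n` and `j` with
  `a + n = 2 j`, and a nonzero element of `H^n(Y) ⊗ S` which is fixed by `Γ` and on which `φ` is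
  multiplication by `p ^ j`. (The eigenvalues of Frobenius on `S` are Weil numbers. By the theorem
  of Honda and Tate powers of them occur up to Tate twists in the cohomology of abelian varieties
  over finite fields, which can be lifted to abelian varieties with complex multiplication over a
  finite extension `K'`. Take for `Y` the restriction of scalars to `K` of a power `A` of such an
  abelian variety; `H^n(Y)` contains the induced representation of `H^n(A)`. The existence of an
  element fixed by `φ` and `Γ`, and not only by `ρ`, is the theorem 90 of Hilbert.)

Theorem. Let `X` be one variety. The following statements are equivalent.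

1. `WeightMonodromy X`: the `p`-adic weight-monodromy conjecture for `X`, for all `m`.
2. `InjectiveAt (E^k × X) e` for one pair `(k, e)` (or all pairs) with `1 ≤ e ≤ k + 1` and
   `dim X ≤ k + e`: for all `m` the map `N ^ e` is injective on the part of weight `m + e` of
   `H^m(E^k × X)`. For example `e = 1` and `k = dim X - 1`, or for a threefold `X`: `N ^ 2` on the
   parts of weight `m + 2` of the cohomology of `E × X`.
3. `NoCrysOdd (E^k × X)` for one `k` (or all `k`) with `k ≥ dim X - 1`: `D_cris(V)^{φ = 1} = 0` for
   `V = H^{2r-1}_et((Y × E^k × X)_K̄, ℚ_p(r))`, for all abelian varieties `Y` with potentially good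
   reduction and all `r`.
4. `NoCrys X`: `D_cris(V)^{φ = 1} = 0` for `V = H^m_et(Z_K̄, ℚ_p(r))`, for all `m < 2 r` and all products
   `Z = Y_1 × ... × Y_j × X` in which each factor `Y_i` is `E` or in `Good`.
5. `NoCentralCrys X`: the same for `m = dim Z = 2 r - 1` only.

Remark (not part of the formal statement). By Bloch and Kato `dim H^1_f / H^1_e` of a de Rham
representation `V` is `dim D_cris(V)^{φ = 1}`, and `dim H^1_g / H^1_f` is the same number for `V^*(1)`; for
`n = dim Z` odd `V = H^n_et(Z_K̄, ℚ_p((n + 1) / 2))` is isomorphic to `V^*(1)`. So 5 says that
`H^1_e(K, V) = H^1_f(K, V) = H^1_g(K, V)` for these `V`.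

There are no hypotheses on `X`, and the statements are about the same `X`. This is the difference to
`MP_6451f1_ag/CentralFrobenius`, where similar statements for all varieties together are compared, and
where the products `X × X` are used. The statement 2 is new also in comparison with the `ℓ`-adic theorem
of `MP_0f76a4_ag/OneSpace`: it concerns only one auxiliary variety `E^k × X`.

Proof. 1 ⟹ 2, 4: the following property of `X` is inherited by `Y × X`, for `Y = E` and for `Y` in
`Good`: for all `k ≥ 1`, `N ^ k` is injective on the parts of weights at least `t + k` of `H^t(X)` for all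
`t`. For this let `z` be a class on `Y × X` killed by `N ^ k` and consider the classes `act(z, x')`. For
`Y = E` and `x = act(z, e1)`, `y = act(z, e0)` one has `N ^ k y = 0` and `N ^ k x = k N ^ (k-1) y`, hence
`N ^ (k+1) x = 0`, and `x = 0` because its weight is large enough, then `N ^ (k-1) y = 0` and `y = 0`.

2 ⟹ 1: let `x ≠ 0` be of weight `t + j` in `H^t(Z)` with `N ^ j x = 0`, `j ≥ 1`. Then `1 × x` in
`H^t(E × Z)` has the same property, `e1 × x` in `H^{t+1}(E × Z)` is of weight `(t + 1) + (j + 1)` and killed
by `N ^ (j+1)`, and if `j ≥ 2`, `u = (j - 1) e0 × x - e1 × N x` in `H^{t+1}(E × Z)` is of weight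
`(t + 1) + (j - 1)`, not zero, and killed by `N ^ (j-1)`. So a failure of injectivity for `X` and `j`
gives one for `E^k × X` and all `e ≥ 1` with `|e - j| ≤ k`. By the bounds for the weights one has
`j ≤ dim X`, so this applies to the pairs `(k, e)` of 2. By Poincaré duality injectivity for all `m`
implies surjectivity.

3 ⟹ 2 (with `e = 1`): let `S` be the part of weight `t + 1` of the kernel of `N` on `H^t(E^k × X)`. If
`S ≠ 0`, the element given by `partner` is in `D_cris(V)^{φ = 1}` for
`V = H^{n+t}((Y × E^k × X)_K̄, ℚ_p(r))`, `n + t = 2 r - 1`.

5 ⟹ 4: multiply with classes `e0`, `pt` and `1` in the cohomology of copies of `E`.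
-/

set_option autoImplicit false

namespace Pool.Agent.Results.MP_d037d4_ag.OneVariety

open Pool.Agent.Y129.WM

/-- For every `X` the `p`-adic weight-monodromy conjecture for `X` is equivalent to the injectivity of
`N ^ e` on the parts of weight `m + e` of `H^m(E^k × X)`, if `1 ≤ e ≤ k + 1` and `dim X ≤ k + e`, and to the
vanishing of `D_cris(V)^{φ = 1}` for the odd cohomology groups of weight `-1` of `Y × E^k × X`, for the
cohomology of all the products `Z` of `X` with copies of `E` and abelian varieties with potentially
good reduction, and for the middle cohomology of these `Z` at the central point. -/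
theorem result {P Γ : Type} [Field P] [CharZero P] [Group Γ] {s : PadicGroup P Γ}
    (C : PstLocal s) (X : C.Obj) :
    (∀ k e : ℕ, 1 ≤ e → e ≤ k + 1 → C.dim X ≤ k + e →
      (C.WeightMonodromy X ↔ C.InjectiveAt (C.power X k) e)) ∧
    (∀ k : ℕ, C.dim X ≤ k + 1 → (C.WeightMonodromy X ↔ C.NoCrysOdd (C.power X k))) ∧
    (C.WeightMonodromy X ↔ C.NoCrys X) ∧ (C.WeightMonodromy X ↔ C.NoCentralCrys X) :=
  C.main X

end Pool.Agent.Results.MP_d037d4_ag.OneVariety
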